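import Pool.Agent.H11.NN1

open H11.NN

theorem Pool.Agent.Results.MP_19ad23_co.Counter.result :
    ∃ n k : ℕ, 1 ≤ k ∧ 2 * k ≤ n ∧ (k - 1) * n < exNN n k ∧ (k - 1) * n < exSNN n k :=
  ⟨11, 5, by norm_num, by norm_num, main.1, main.2⟩
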